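import Pool.Agent.Lib.MP_6bd702_perdp.PinDefs
import Pool.Agent.Lib.MP_6bd702_percw.LowBasic
import Pool.Agent.Lib.MP_6bd702_percw.SymB
import Pool.Agent.Lib.MP_6bd702_percw.LowSym

/-!
# Symmetries for the pinch (task PinSym; as `reduce_east` in `LowSym.lean`, helper53)

The definition of `Pin` is invariant under the symmetries of the square around the origin (both ends
of the boundary unit edges are used). `pin_shift` is the translation by an even vector.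
-/

set_option autoImplicit false

namespace Pool.Agent.PercP

open Finset Pool.Agent.Perc Pool.Agent.PercL Pool.Agent.PercL.LowSym

namespace PinSym

/-- The pinch is invariant under a symmetry. -/
theorem pin_iff {σ : Sym} {p p' : ℤ × ℤ} {d d' : Fin 4} {R R' ρ : ℤ} {ω : Cfg}
    (M : σ.Maps (p.1 - R) (p.1 + R) (p.2 - R) (p.2 + R) (p'.1 - R) (p'.1 + R) (p'.2 - R) (p'.2 + R))
    (M' : σ.Maps (p.1 - R') (p.1 + R') (p.2 - R') (p.2 + R')
      (p'.1 - R') (p'.1 + R') (p'.2 - R') (p'.2 + R'))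
    (hue : σ.s (ue p d) = ue p' d') (hv : σ.v p = p') :
    σ.act ω ∈ Pin p' d' R R' ρ ↔ ω ∈ Pin p d R R' ρ := by
  have hM : ∀ k, σ.s k ∈ MM (σ.act ω) (QF p' R) (ue p' d') ↔ k ∈ MM ω (QF p R) (ue p d) := by
    intro k
    rw [← hue]
    exact M.mem_MM_iff
  have hM' : ∀ k, σ.s k ∈ MM (σ.act ω) (QF p' R') (ue p' d') ↔ k ∈ MM ω (QF p R') (ue p d) := by
    intro k
    rw [← hue]
    exact M'.mem_MM_iff
  have hpar : ∀ a, par (σ.v a) = par p' ↔ par a = par p := by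
    intro a
    rw [← hv]
    exact M.par a p
  have hW : ∀ a t, (¬ Wi ρ (σ.v a) (ua (σ.s t)) ∧ ¬ Wi ρ (σ.v a) (ub (σ.s t))) ↔
      (¬ Wi ρ a (ua t) ∧ ¬ Wi ρ a (ub t)) := by
    intro a t
    have hj : Joins (σ.s t) (σ.v (ua t)) (σ.v (ub t)) := σ.joins_iff.2 (Or.inl ⟨rfl, rfl⟩)
    rcases hj with ⟨k1, k2⟩ | ⟨k1, k2⟩
    · rw [← k1, ← k2, M.wi, M.wi]
    · rw [← k1, ← k2, M.wi, M.wi, and_comm]
  constructor
  · rintro ⟨a, q, q', k, k', h1, h2, h3, h4, h5, h6, h7⟩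
    obtain ⟨a, rfl⟩ := σ.v.surjective a
    obtain ⟨q, rfl⟩ := σ.v.surjective q
    obtain ⟨q', rfl⟩ := σ.v.surjective q'
    obtain ⟨k, rfl⟩ := σ.s.surjective k
    obtain ⟨k', rfl⟩ := σ.s.surjective k'
    refine ⟨a, q, q', k, k', (hpar a).1 h1, σ.joins_iff.1 h2, σ.joins_iff.1 h3, (hM k).1 h4,
      fun h => h5 ((hM k').2 h), (hM' k').1 h6, fun t ht hb => ?_⟩
    exact (hW a t).1 (h7 _ ((hM t).2 ht) ((M.bdE t).2 hb))
  · rintro ⟨a, q, q', k, k', h1, h2, h3, h4, h5, h6, h7⟩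
    refine ⟨σ.v a, σ.v q, σ.v q', σ.s k, σ.s k', (hpar a).2 h1, σ.joins_iff.2 h2,
      σ.joins_iff.2 h3, (hM k).2 h4, fun h => h5 ((hM k').1 h), (hM' k').2 h6, fun t ht hb => ?_⟩
    obtain ⟨t, rfl⟩ := σ.s.surjective t
    exact (hW a t).2 (h7 t ((hM t).1 ht) ((M.bdE t).1 hb))

theorem QF_mono {p : ℤ × ℤ} {R R' : ℤ} (h : R ≤ R') : QF p R ⊆ QF p R' := by
  intro f hf
  simp only [QF, RF, Finset.mem_product, Finset.mem_Ico] at hf ⊢
  omega

theorem MM_eq {p : ℤ × ℤ} {e : UE} {R : ℤ} {ω ω' : Cfg} (h : ∀ f ∈ QF p R, ω f = ω' f) :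
    MM ω' (QF p R) e = MM ω (QF p R) e :=
  MM_congr fun f hf => h f (by exact_mod_cast hf.1)

theorem Pin_of_eq {p : ℤ × ℤ} {d : Fin 4} {R R' ρ : ℤ} (hR : R ≤ R') {ω ω' : Cfg}
    (h : ∀ f ∈ QF p R', ω f = ω' f) : ω ∈ Pin p d R R' ρ ↔ ω' ∈ Pin p d R R' ρ := by
  have e1 := MM_eq (e := ue p d) h
  have e2 := MM_eq (e := ue p d) fun f hf => h f (QF_mono hR hf)
  unfold Pin
  simp only [Set.mem_ofPred_eq]
  rw [e1, e2]

end PinSym

open PinSym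

theorem reduce_east_pin {R B ρ r : ℤ} {c : ℝ} (hR : 1 ≤ R) (hRB : R ≤ B) (hρ : 1 ≤ ρ)
    (hE : ∀ (ω : Cfg) (d : Fin 4) (h : ℤ), FT ω (0, 0) d R ρ (R, h, true) →
      c ≤ pr (QF (0, 0) B) {ξ | mixC (SQ ω (0, 0) d R) ω ξ ∈ Pin (0, 0) d R B r})
    (ω : Cfg) (d : Fin 4) (hω : ω ∈ FarEv (0, 0) d R (ρ + 1)) :
    c ≤ pr (QF (0, 0) B) {ξ | mixC (SQ ω (0, 0) d R) ω ξ ∈ Pin (0, 0) d R B r} := by
  obtain ⟨σ, π, h, hσ, hF⟩ := east_cases hω
  refine (hE _ _ h hF).trans (le_of_eq ?_)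
  rw [← hσ.pr_act]
  · congr 1
    ext ξ
    simp only [Set.mem_ofPred_eq]
    rw [hσ.SQ_act, ← act_mixC]
    exact pin_iff (p := (0, 0)) (p' := (0, 0)) (hσ.maps R) (hσ.maps B) (hσ.hue d) hσ.hv0
  · intro ξ ξ' hξ
    simp only [Set.mem_ofPred_eq]
    refine Pin_of_eq hRB fun f hf => ?_
    unfold mixC
    rw [hξ f (by exact_mod_cast hf)]

theorem depOn_Pin {p : ℤ × ℤ} {d : Fin 4} {R R' ρ : ℤ} (h : R ≤ R') :
    DepOn (QF p R' : Set (ℤ × ℤ)) (Pin p d R R' ρ) := fun _ _ hω =>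
  Pin_of_eq h fun f hf => hω f (by exact_mod_cast hf)

/-- Translation by an even vector. -/
theorem pr_NoPin_shift {p : ℤ × ℤ} {d : Fin 4} {R r : ℤ} {K : ℕ} (hr : 0 ≤ r)
    (hp : (p.1 + p.2) % 2 = 0) {W : Finset (ℤ × ℤ)} (hW : QF p (R + 80 * r * K) ⊆ W) :
    pr W (NoPin p d R r K) = pr (QF (0, 0) (R + 80 * r * K)) (NoPin (0, 0) d R r K) := by
  have hj : ∀ j : ℕ, j < K → R + 80 * r * (j + 1) ≤ R + 80 * r * K := by
    intro j hj
    have h1 : ((j : ℤ) + 1) ≤ K := by exact_mod_cast hj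
    nlinarith [mul_nonneg hr (sub_nonneg.2 h1)]
  have hj' : ∀ j : ℕ, R + 80 * r * j ≤ R + 80 * r * (j + 1) := by
    intro j
    nlinarith
  have hdep : DepOn (QF p (R + 80 * r * K) : Set (ℤ × ℤ)) (NoPin p d R r K) := by
    intro ω ω' hω
    unfold NoPin
    simp only [Set.mem_ofPred_eq]
    refine and_congr (depOn_TA ω ω' hω) (forall_congr' fun j => forall_congr' fun hjK => ?_)
    rw [not_iff_not]
    exact Pin_of_eq (hj' j) fun f hf => hω f (by exact_mod_cast QF_mono (hj j hjK) hf)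
  rw [pr_eq_of_depOn hdep hW, ← pr_tr p hdep]
  congr 1
  ext ω
  unfold NoPin
  simp only [Set.mem_ofPred_eq]
  refine and_congr ?_ (forall_congr' fun j => forall_congr' fun hjK => ?_)
  · have h1 := (maps_tr p (R + 80 * r * K)).toBd_iff (ω := ω) (u := (0, 0))
    have h2 := (maps_tr p (R + 80 * r * K)).toBd_iff (ω := ω) (u := nb (0, 0) d)
    rw [tr_v0] at h1
    rw [tr_nb] at h2
    exact and_congr h1 h2
  · rw [not_iff_not]
    exact pin_iff (p := (0, 0)) (p' := p) (maps_tr p _) (maps_tr p _) (tr_ue p d) (tr_v0 p)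

end Pool.Agent.PercP
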