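import Pool.Agent.Lib.MP_6bd702_perdp.PinEast
import Pool.Agent.Lib.MP_6bd702_perdp.PinSym
import Pool.Agent.Lib.MP_6bd702_percw.LowClose
import Pool.Agent.Lib.MP_6bd702_percw.LowMix
import Pool.Agent.Lib.MP_6bd702_percw.LowSym

/-!
# The tail estimate for the pinch (task PinTail)

`pin_step`: for `ω ∈ N` there is a tip (`TA_iff_tip`), `tip_dichotomy` with `ρ = 16 r + 1`; close case:
`close_step` (`B = R + 80 r ≥ R + 4 (16 r + 1)`); far case: `reduce_east_pin` with `ρ = 16 r` and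
`pin_east`. `pr_mixC` with `A = N`, `X = N \ (TA 0 d B \ Pin ..)`.

`pin_tail`: induction on `K` with `N = NoPin (0, 0) d R r K` (it is determined by the visited faces
`SQ ω 0 d (R + 80 r K)`: `SQ` is monotone in the radius, `MM_congr`, `TA_congr`), `pr_TA`,
`pr_NoPin_shift`.
-/

set_option autoImplicit false

namespace Pool.Agent.PercP

open Finset Pool.Agent.Perc Pool.Agent.PercL

theorem PinTail.not_bdE {R : ℤ} (hR : 2 ≤ R) (d : Fin 4) :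
    ¬ BdE (-R) R (-R) R (ue (0, 0) d) := by
  unfold BdE
  fin_cases d <;> simp [ue] <;> omega

theorem PinTail.QF_zero (R : ℤ) : QF (0, 0) R = RF (-R) R (-R) R := by
  unfold QF
  simp

theorem PinTail.QF_mono {p : ℤ × ℤ} {R B : ℤ} (h : R ≤ B) : QF p R ⊆ QF p B := by
  intro f hf
  unfold QF RF at *
  simp only [mem_product, mem_Ico] at *
  omega

theorem PinTail.inR_of_bdE {R : ℤ} {t : UE} (h : BdE (-R) R (-R) R t) :
    InR (-R) R (-R) R (ua t) := by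
  unfold BdE at h
  unfold InR ua
  rcases h with ⟨h1, h2, h3, h4⟩ | ⟨h1, h2, h3, h4⟩ <;> simp only <;> omega

open PinTail in
theorem pin_step : ∃ c : ℝ, 0 < c ∧ c < 1 ∧ ∀ (r R : ℤ) (d : Fin 4) (N : Set Cfg), 1 ≤ r →
    40 * r ≤ R → N ⊆ TA (0, 0) d R →
    (∀ ω ∈ N, ∀ ζ : Cfg, (∀ f ∈ SQ ω (0, 0) d R, ω f = ζ f) → ζ ∈ N) →
    DepOn (QF (0, 0) R : Set (ℤ × ℤ)) N →
      pr (QF (0, 0) (R + 80 * r)) {ω | ω ∈ N ∧ ω ∈ TA (0, 0) d (R + 80 * r) ∧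
        ω ∉ Pin (0, 0) d R (R + 80 * r) r} ≤ (1 - c) * pr (QF (0, 0) R) N := by
  obtain ⟨c₂, hc₂, hE⟩ := pin_east
  obtain ⟨c₃, hc₃, hc₃', hcl⟩ := close_step
  refine ⟨min c₂ c₃, lt_min hc₂ hc₃, lt_of_le_of_lt (min_le_right _ _) hc₃', ?_⟩
  intro r R d N hr hR hN hstop hdep
  set B : ℤ := R + 80 * r with hB
  have hRB : R ≤ B := by omega
  have key : ∀ ω ∈ N, min c₂ c₃ ≤ pr (QF (0, 0) B) {ξ | ¬ (mixC (SQ ω (0, 0) d R) ω ξ ∈
      TA (0, 0) d B ∧ mixC (SQ ω (0, 0) d R) ω ξ ∉ Pin (0, 0) d R B r)} := by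
    intro ω hω
    obtain ⟨t₀, ht₀, hb₀⟩ := (TA_iff_tip (by omega)).1 (hN hω)
    rw [QF_zero] at ht₀
    simp only [zero_sub, zero_add] at hb₀
    rcases tip_dichotomy (ρ := 16 * r + 1) (by omega) (not_bdE (by omega) d) ht₀ hb₀ with h | h
    · refine (min_le_right _ _).trans ((hcl ω (ua t₀) d R B (16 * r + 1) (by omega) (by omega)
        (by omega) (inR_of_bdE hb₀) h).trans ?_)
      exact pr_mono _ fun ξ hξ hξ' => hξ hξ'.1
    · have hfar : ω ∈ FarEv (0, 0) d R (16 * r + 1) := by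
        refine ⟨t₀, ?_⟩
        unfold FT
        simp only [zero_sub, zero_add]
        exact ⟨ht₀, hb₀, h⟩
      have h1 := reduce_east_pin (R := R) (B := B) (ρ := 16 * r) (r := r) (c := c₂) (by omega) hRB
        (by omega) (fun ω d h hω => hE ω r R B h d hr (by omega) (by omega) hω) ω d hfar
      refine (min_le_left _ _).trans (h1.trans ?_)
      exact pr_mono _ fun ξ hξ hξ' => hξ'.2 hξ
  have h2 := pr_mixC (W := QF (0, 0) B) (fun ω => SQ ω (0, 0) d R) (fun ω ω' h => SQ_stop h)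
    N {ω | ω ∈ N ∧ ¬ (ω ∈ TA (0, 0) d B ∧ ω ∉ Pin (0, 0) d R B r)}
    (fun ω => {ξ | ¬ (mixC (SQ ω (0, 0) d R) ω ξ ∈
      TA (0, 0) d B ∧ mixC (SQ ω (0, 0) d R) ω ξ ∉ Pin (0, 0) d R B r)}) key (by
      intro ω hω ξ hξ
      refine ⟨hstop ω hω _ ?_, hξ⟩
      intro f hf
      unfold mixC
      rw [if_pos hf])
  have h3 := pr_inter_add_diff (QF (0, 0) B) N
    {ω | ω ∈ TA (0, 0) d B ∧ ω ∉ Pin (0, 0) d R B r}
  have h4 : pr (QF (0, 0) B) N = pr (QF (0, 0) R) N := pr_eq_of_depOn hdep (QF_mono hRB)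
  have h5 : N ∩ {ω | ω ∈ TA (0, 0) d B ∧ ω ∉ Pin (0, 0) d R B r} =
      {ω | ω ∈ N ∧ ω ∈ TA (0, 0) d B ∧ ω ∉ Pin (0, 0) d R B r} := by
    ext ω
    exact Iff.rfl
  have h6 : N \ {ω | ω ∈ TA (0, 0) d B ∧ ω ∉ Pin (0, 0) d R B r} =
      {ω | ω ∈ N ∧ ¬ (ω ∈ TA (0, 0) d B ∧ ω ∉ Pin (0, 0) d R B r)} := by
    ext ω
    exact Iff.rfl
  rw [h5, h6, h4] at h3
  rw [h4] at h2
  linarith

theorem PinTail.SQ_mono {ω : Cfg} {p : ℤ × ℤ} {d : Fin 4} {R R' : ℤ} (h : R ≤ R') :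
    SQ ω p d R ⊆ SQ ω p d R' := by
  rintro f ⟨hf, a, ha, hs⟩
  have hQ := QF_mono (p := p) h
  exact ⟨hQ hf, a, MM_mono (fun x hx => hQ hx) ha, hs⟩

open PinTail in
theorem PinTail.pin_congr {ω ζ : Cfg} {p : ℤ × ℤ} {d : Fin 4} {R R₁ R₂ ρ : ℤ} (h1 : R₁ ≤ R)
    (h2 : R₂ ≤ R) (h : ∀ f ∈ SQ ω p d R, ω f = ζ f) :
    ζ ∈ Pin p d R₁ R₂ ρ ↔ ω ∈ Pin p d R₁ R₂ ρ := by
  have e1 : MM ζ (QF p R₁ : Set (ℤ × ℤ)) (ue p d) = MM ω (QF p R₁ : Set (ℤ × ℤ)) (ue p d) :=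
    MM_congr fun f hf => h f (SQ_mono h1 hf)
  have e2 : MM ζ (QF p R₂ : Set (ℤ × ℤ)) (ue p d) = MM ω (QF p R₂ : Set (ℤ × ℤ)) (ue p d) :=
    MM_congr fun f hf => h f (SQ_mono h2 hf)
  unfold Pin
  simp only [Set.mem_ofPred_eq]
  rw [e1, e2]

open PinTail in
theorem PinTail.noPin_stop {p : ℤ × ℤ} {d : Fin 4} {R r : ℤ} {K : ℕ} (hr : 0 ≤ r) (hR : 1 ≤ R)
    {ω ζ : Cfg} (h : ∀ f ∈ SQ ω p d (R + 80 * r * K), ω f = ζ f) (hω : ω ∈ NoPin p d R r K) :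
    ζ ∈ NoPin p d R r K := by
  have hK : 0 ≤ r * (K : ℤ) := mul_nonneg hr (Int.natCast_nonneg K)
  refine ⟨(TA_congr (by nlinarith) h).2 hω.1, fun j hj hP => hω.2 j hj ?_⟩
  have hj' : ((j : ℤ) + 1) ≤ K := by exact_mod_cast hj
  have hrj : r * ((j : ℤ) + 1) ≤ r * K := mul_le_mul_of_nonneg_left hj' hr
  exact (pin_congr (by nlinarith) (by nlinarith) h).1 hP

open PinTail in
theorem pin_tail : ∃ c : ℝ, 0 < c ∧ c < 1 ∧ ∀ (r R : ℤ) (p : ℤ × ℤ) (d : Fin 4) (K : ℕ),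
    (p.1 + p.2) % 2 = 0 → 1 ≤ r → 40 * r ≤ R → ∀ W : Finset (ℤ × ℤ),
      QF p (R + 80 * r * K) ⊆ W → pr W (NoPin p d R r K) ≤ (1 - c) ^ K * p2 R := by
  obtain ⟨c, hc, hc', h⟩ := pin_step
  refine ⟨c, hc, hc', ?_⟩
  intro r R p d K hp hr hR W hW
  rw [pr_NoPin_shift (by omega) hp hW]
  clear hW hp
  induction K with
  | zero =>
    simp only [Nat.cast_zero, mul_zero, add_zero, pow_zero, one_mul]
    refine (pr_mono _ (B := TA (0, 0) d R) fun ω hω => ?_).trans (pr_TA (Finset.Subset.refl _)).le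
    have := hω.1
    simpa using this
  | succ K ih =>
    have hK : 0 ≤ r * (K : ℤ) := mul_nonneg (by omega) (Int.natCast_nonneg K)
    have e : R + 80 * r * ((K + 1 : ℕ) : ℤ) = R + 80 * r * K + 80 * r := by
      push_cast; ring
    have hstop : ∀ ω ∈ NoPin (0, 0) d R r K, ∀ ζ : Cfg,
        (∀ f ∈ SQ ω (0, 0) d (R + 80 * r * K), ω f = ζ f) → ζ ∈ NoPin (0, 0) d R r K :=
      fun ω hω ζ hζ => noPin_stop (by omega) (by omega) hζ hω
    have hdep : DepOn (QF (0, 0) (R + 80 * r * K) : Set (ℤ × ℤ)) (NoPin (0, 0) d R r K) :=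
      fun ω ω' hω => ⟨fun h1 => hstop ω h1 ω' fun f hf => hω f (SS_sub hf),
        fun h1 => hstop ω' h1 ω fun f hf => (hω f (SS_sub hf)).symm⟩
    have h1 := h r (R + 80 * r * K) d (NoPin (0, 0) d R r K) hr (by nlinarith)
      (fun ω hω => hω.1) hstop hdep
    rw [e]
    refine le_trans (pr_mono _ fun ω hω => ?_) (h1.trans ?_)
    · have hT : ω ∈ TA (0, 0) d (R + 80 * r * K + 80 * r) := by
        have := hω.1
        rwa [e] at this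
      refine ⟨⟨TA_anti (by nlinarith) (by omega) hT, fun j hj => hω.2 j (by omega)⟩, hT, ?_⟩
      have h2 := hω.2 K (by omega)
      rwa [show R + 80 * r * ((K : ℤ) + 1) = R + 80 * r * K + 80 * r by ring] at h2
    · calc (1 - c) * pr (QF (0, 0) (R + 80 * r * K)) (NoPin (0, 0) d R r K)
          ≤ (1 - c) * ((1 - c) ^ K * p2 R) := mul_le_mul_of_nonneg_left ih (by linarith)
        _ = (1 - c) ^ (K + 1) * p2 R := by ring

end Pool.Agent.PercP
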