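import Pool.Agent.Lib.MP_6bd702_perdp.PinOrb
import Pool.Agent.Lib.MP_6bd702_perdp.PinTail
import Pool.Agent.Lib.MP_6bd702_percD.CurveFinal
import Pool.Agent.Lib.MP_6bd702_percd.B1

/-!
# Double points with high probability
-/

set_option autoImplicit false

namespace Pool.Agent.PercP

open Finset Filter Topology
open Pool.Agent.Perc Pool.Agent.PercL Pool.Agent.PercD
open Pool.Agent.MP_6bd702.H23 (Ed)
open Pool.Agent.PercU (Cor vtx fce)
open Pool.Agent.PercO (Oc mem_Oc)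
open Pool.Agent.PercX60 (gV gT dB Sn)
open Pool.Agent.PercW (kap)

theorem Dbl_anti {η η' : ℝ} (h : η ≤ η') {γ : Loop} (hγ : γ ∈ Loop.Dbl η') : γ ∈ Loop.Dbl η := by
  obtain ⟨s, t, h1, h2, h3, ⟨x, hx, y, hy, h4⟩, x', hx', y', hy', h5⟩ := hγ
  exact ⟨s, t, h1, h2, h3, ⟨x, hx, y, hy, h.trans h4⟩, x', hx', y', hy', h.trans h5⟩

/-- The configuration of the faces and the configuration of the edges agree in the box. -/
theorem gT_cfgE_of_mem {n : ℕ} {ω : Cfg} {f : ℤ × ℤ} (hf : f ∈ Sn n) :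
    gT (cfgE n ω : Set Ed) f = ω f := by
  obtain ⟨e, he, rfl⟩ := Finset.mem_image.1 hf
  exact PercX60.gT_cfgE he

/-- The deterministic part: without a macroscopic double point no outer corner has a pinch. -/
theorem noPin_of {n : ℕ} {ω : Cfg} {u : ℤ × ℤ} {k : Cor} {d : Fin 4} {R r : ℤ} {K : ℕ} {D η : ℝ}
    (hn : 1 ≤ n) (hk : k ∈ Oc (cfgE n ω : Set Ed) u) (hd : kap k = ue (gV k) d)
    (hD : D ≤ Metric.diam (clS (cfgE n ω) u)) (hr : 1 ≤ r) (hR : 1 ≤ R)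
    (hB : R + 80 * r * K + 2 ≤ dB n (vtx k)) (hBD : 4 * (((R + 80 * r * K : ℤ) : ℝ) + 3) ≤ D)
    (hη : η ≤ ((r : ℝ) / 2) / n) (hno : outerLoop n (cfgE n ω) u ∉ Loop.Dbl η) :
    ω ∈ NoPin (gV k) d R r K := by
  set B : ℤ := R + 80 * r * K with hBdef
  have hK0 : (0 : ℤ) ≤ 80 * r * K := by positivity
  have hB1 : 1 ≤ B := by omega
  have hT : cfgE n ω ⊆ boxE n := Finset.filter_subset _ _
  have hsub : QF (gV k) B ⊆ Sn n := BR_phiV_sub (by omega)
  refine ⟨?_, ?_⟩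
  · rw [TA_iff_tip hB1, ← hd]
    have h1 := Rch_of_outer (R := B + 1) hk hD (by omega) (by omega) (by
      push_cast
      linarith)
    have hin : InE (gV k) 1 (kap k) :=
      kap_inE k (v := vtx k) (d := 0) (by simp) (by simp) (by norm_num)
    have h2 : ω ∈ Rch (gV k) B (kap k) := by
      refine Rch_sub ?_ ((Sub.refl' hB1).inE hin) h1
      have h3 := hin.1
      unfold InR at h3
      unfold PercD.Sub
      omega
    exact h2
  · intro j hj hpin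
    have hjK : (j : ℤ) + 1 ≤ K := by exact_mod_cast hj
    have hj0 : (0 : ℤ) ≤ j := Int.natCast_nonneg j
    have e1 : 80 * r * (j + 1) ≤ 80 * r * K := by
      have : (0 : ℤ) ≤ 80 * r := by omega
      exact mul_le_mul_of_nonneg_left hjK this
    have e2 : 0 ≤ 80 * r * j := by positivity
    have e3 : 80 * r * j ≤ 80 * r * (j + 1) := by nlinarith
    have hpin' : gT (cfgE n ω : Set Ed) ∈ Pin (gV k) d (R + 80 * r * j) (R + 80 * r * (j + 1)) r := by
      refine (depOn_Pin (by omega) _ _ fun f hf => ?_).1 hpin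
      refine (gT_cfgE_of_mem (hsub ?_)).symm
      rw [mem_coe] at hf
      unfold QF at hf ⊢
      rw [mem_RF] at hf ⊢
      omega
    obtain ⟨h1, h2⟩ := mem_Oc.1 hk
    have h3 := pin_orb hT h1 h2 hd (by omega) (by omega) hr hpin'
    exact hno (Dbl_anti hη h3)

/-- The sizes. -/
theorem pin_sizes {c' : ℝ} (hc' : 0 < c') (K : ℕ) : ∀ᶠ n : ℕ in atTop, ∃ r R : ℕ, 1 ≤ n ∧ 1 ≤ r ∧
    1 ≤ R ∧ 40 * r ≤ R ∧ ((R + 80 * r * K + 3 : ℕ) : ℝ) ≤ c' * n ∧
    c' / (800 * (K + 1)) ≤ ((r : ℝ) / 2) / n ∧ c' * n / 4 ≤ R := by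
  have h1 : Tendsto (fun n : ℕ => c' * (n : ℝ)) atTop atTop :=
    Tendsto.const_mul_atTop hc' tendsto_natCast_atTop_atTop
  filter_upwards [h1.eventually_ge_atTop (400 * ((K : ℝ) + 1)), eventually_ge_atTop 1] with n hn hn1
  have hn0 : (0 : ℝ) < n := by exact_mod_cast hn1
  have hK : (0 : ℝ) < (K : ℝ) + 1 := by positivity
  set x : ℝ := c' * n with hx
  have hx0 : 400 ≤ x := by
    have : (1 : ℝ) ≤ (K : ℝ) + 1 := by linarith [(Nat.cast_nonneg K : (0 : ℝ) ≤ K)]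
    nlinarith
  set y : ℝ := x / (200 * ((K : ℝ) + 1)) with hy
  have hy2 : 2 ≤ y := by
    rw [hy, le_div_iff₀ (by positivity)]
    linarith
  have hyx : y * (200 * ((K : ℝ) + 1)) = x := by
    rw [hy]
    field_simp
  set r : ℕ := ⌊y⌋₊ with hr
  set R : ℕ := ⌊x / 2⌋₊ with hR
  have r1 : (r : ℝ) ≤ y := Nat.floor_le (by linarith)
  have r2 : y < (r : ℝ) + 1 := Nat.lt_floor_add_one _
  have R1 : (R : ℝ) ≤ x / 2 := Nat.floor_le (by linarith)
  have R2 : x / 2 < (R : ℝ) + 1 := Nat.lt_floor_add_one _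
  have hyx' : y * 200 ≤ x := by
    have h0 : (0 : ℝ) ≤ K := Nat.cast_nonneg K
    nlinarith
  refine ⟨r, R, hn1, ?_, ?_, ?_, ?_, ?_, ?_⟩
  · have : (1 : ℝ) < (r : ℝ) + 1 := by linarith
    have : (0 : ℝ) < r := by linarith
    exact_mod_cast this
  · have : (0 : ℝ) < R := by linarith
    exact_mod_cast this
  · have : ((40 * r : ℕ) : ℝ) ≤ (R : ℝ) := by
      push_cast
      linarith
    exact_mod_cast this
  · push_cast
    have h2 : 80 * (r : ℝ) * K ≤ 80 * y * (K + 1) := by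
      have h0 : (0 : ℝ) ≤ K := Nat.cast_nonneg K
      have h3 : (r : ℝ) * K ≤ y * (K + 1) :=
        mul_le_mul r1 (by linarith) h0 (by linarith)
      linarith
    have h3 : 80 * y * ((K : ℝ) + 1) = 2 / 5 * x := by rw [← hyx]; ring
    linarith
  · rw [le_div_iff₀ hn0, div_mul_eq_mul_div, div_le_iff₀ (by positivity), ← hx, ← hyx]
    have h4 : y ≤ 2 * r := by linarith
    nlinarith
  · linarith

open Classical in
theorem targetDbl_of (hP : P2Bounds) (hB : TargetB3) : TargetDbl := by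
  intro ε hε
  obtain ⟨κ, k₀, c, hκ, hk₀, hc, hB'⟩ := hB (ε / 2) (by positivity)
  obtain ⟨_c0, C, _, hC, hp2⟩ := hP
  obtain ⟨q, hq0, hq1, htail⟩ := pin_tail
  set c' : ℝ := min κ k₀ / 4 with hc'
  have hc'0 : 0 < c' := by rw [hc']; have := lt_min hκ hk₀; positivity
  have hcκ : 4 * c' ≤ κ := by rw [hc']; linarith [min_le_left κ k₀]
  have hck : 4 * c' ≤ k₀ := by rw [hc']; linarith [min_le_right κ k₀]
  -- the choice of `K`
  set M : ℝ := 16 * (C * (c' / 4) ^ (-(1 / 4) : ℝ)) / c with hM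
  have hM0 : 0 < M := by rw [hM]; positivity
  obtain ⟨K, hK⟩ : ∃ K : ℕ, M * (1 - q) ^ K ≤ ε / 2 := by
    obtain ⟨K, hK⟩ := exists_pow_lt_of_lt_one (show 0 < ε / 2 / M by positivity)
      (show 1 - q < 1 by linarith)
    refine ⟨K, ?_⟩
    rw [lt_div_iff₀ hM0] at hK
    linarith
  refine ⟨c' / (800 * (K + 1)), by positivity, fun sel hsel => ?_⟩
  filter_upwards [hB' sel hsel, pin_sizes hc'0 K] with n hn hsz
  obtain ⟨r, R, hn1, hr, hR, hrR, hBn, hη, hRn⟩ := hsz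
  have hn1' : (1 : ℝ) ≤ n := by exact_mod_cast hn1
  have hn0 : (0 : ℝ) < n := by linarith
  set B : ℤ := (R : ℤ) + 80 * r * K with hBdef
  have hBr : ((B : ℤ) : ℝ) + 3 ≤ c' * n := by
    rw [hBdef]
    push_cast at hBn ⊢
    exact hBn
  -- the bulk vertices
  set V : Finset (ℤ × ℤ) := ((Icc 0 (n : ℤ)) ×ˢ (Icc 0 (n : ℤ))).filter
    fun v => Bulk n (κ * n) v with hV
  set I : Finset ((ℤ × ℤ) × Fin 4) := V ×ˢ univ with hI
  set A : (ℤ × ℤ) × Fin 4 → Set Cfg := fun i => NoPin (phiV i.1) i.2 R r K with hA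
  have hdB : ∀ v, Bulk n (κ * n) v → B + 3 ≤ dB n v := by
    rintro v ⟨h1, h2, h3, h4⟩
    have h5 : ((B + 3 : ℤ) : ℝ) ≤ κ * n := by
      push_cast
      nlinarith
    refine le_dB ?_ ?_ ?_ ?_
    · exact_mod_cast h5.trans h1
    · have : (v.1 : ℝ) ≤ (((n : ℤ) - (B + 3) : ℤ) : ℝ) := by push_cast at h5 ⊢; linarith
      exact_mod_cast this
    · exact_mod_cast h5.trans h3
    · have : (v.2 : ℝ) ≤ (((n : ℤ) - (B + 3) : ℤ) : ℝ) := by push_cast at h5 ⊢; linarith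
      exact_mod_cast this
  have hone : ∀ i ∈ I, pr (Sn n) (A i) ≤ (1 - q) ^ K * (C * (R : ℝ) ^ (-(1 / 4) : ℝ)) := by
    rintro ⟨v, d⟩ hi
    rw [hI, mem_product, hV, mem_filter] at hi
    have h1 := hdB v hi.1.2
    have h2 : QF (phiV v) ((R : ℤ) + 80 * r * K) ⊆ Sn n := BR_phiV_sub (by omega)
    refine (htail r R (phiV v) d K (by simp [phiV]; omega) (by exact_mod_cast hr)
      (by exact_mod_cast hrR) _ h2).trans ?_
    exact mul_le_mul_of_nonneg_left (hp2 R hR).2 (pow_nonneg (by linarith) _)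
  have hcardI : (I.card : ℝ) ≤ 16 * (n : ℝ) ^ 2 := by
    have h1 : I.card ≤ (n + 1) * (n + 1) * 4 := by
      rw [hI, card_product, card_univ, Fintype.card_fin]
      refine Nat.mul_le_mul_right _ ((card_filter_le _ _).trans ?_)
      rw [card_product, Int.card_Icc]
      have : ((n : ℤ) + 1 - 0).toNat = n + 1 := by omega
      rw [this]
    have h2 : (I.card : ℝ) ≤ ((n : ℝ) + 1) * ((n : ℝ) + 1) * 4 := by exact_mod_cast h1
    nlinarith
  -- Markov
  have hn74 : (0 : ℝ) < (n : ℝ) ^ (7 / 4 : ℝ) := Real.rpow_pos_of_pos hn0 _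
  have hmark : pr (Sn n) {ω | c * (n : ℝ) ^ (7 / 4 : ℝ) ≤ ((I.filter fun i => ω ∈ A i).card : ℝ)} ≤
      ε / 2 := by
    refine (pr_count_le (Sn n) I A (by positivity)).trans ?_
    rw [div_le_iff₀ (by positivity)]
    refine (Finset.sum_le_sum hone).trans ?_
    rw [sum_const, nsmul_eq_mul]
    have hR0 : (0 : ℝ) < R := by exact_mod_cast hR
    have h1 : (R : ℝ) ^ (-(1 / 4) : ℝ) ≤ (c' / 4) ^ (-(1 / 4) : ℝ) * (n : ℝ) ^ (-(1 / 4) : ℝ) := by
      rw [← Real.mul_rpow (by positivity) hn0.le]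
      exact Real.rpow_le_rpow_of_nonpos (by positivity) (by linarith) (by norm_num)
    have h2 : (n : ℝ) ^ 2 * (n : ℝ) ^ (-(1 / 4) : ℝ) = (n : ℝ) ^ (7 / 4 : ℝ) := by
      rw [← Real.rpow_natCast (n : ℝ) 2, ← Real.rpow_add hn0]
      norm_num
    have hqK : 0 ≤ (1 - q) ^ K := pow_nonneg (by linarith) _
    calc (I.card : ℝ) * ((1 - q) ^ K * (C * (R : ℝ) ^ (-(1 / 4) : ℝ)))
        ≤ (16 * (n : ℝ) ^ 2) * ((1 - q) ^ K * (C * ((c' / 4) ^ (-(1 / 4) : ℝ) *
            (n : ℝ) ^ (-(1 / 4) : ℝ)))) := by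
          refine mul_le_mul hcardI ?_ (by positivity) (by positivity)
          exact mul_le_mul_of_nonneg_left (mul_le_mul_of_nonneg_left h1 hC.le) hqK
      _ = 16 * (C * (c' / 4) ^ (-(1 / 4) : ℝ)) * (1 - q) ^ K *
            ((n : ℝ) ^ 2 * (n : ℝ) ^ (-(1 / 4) : ℝ)) := by ring
      _ = (M * (1 - q) ^ K) * (c * (n : ℝ) ^ (7 / 4 : ℝ)) := by
          rw [h2, hM]
          field_simp
      _ ≤ ε / 2 * (c * (n : ℝ) ^ (7 / 4 : ℝ)) :=
          mul_le_mul_of_nonneg_right hK (by positivity)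
  -- the union
  set G : Set (Finset Edg) := {T | ¬ (k₀ * n ≤ Metric.diam (clS T (sel n T)) ∧
    c * (n : ℝ) ^ (7 / 4 : ℝ) ≤ ({v | v ∈ OutV T (sel n T) ∧ Bulk n (κ * n) v}).ncard)} with hG
  rw [← PercX60.pr_Sn] at hn ⊢
  have hsub : {ω | cfgE n ω ∈ {T | outerLoop n T (sel n T) ∉ Loop.Dbl (c' / (800 * (K + 1)))}} ⊆
      {ω | cfgE n ω ∈ G} ∪
        {ω | c * (n : ℝ) ^ (7 / 4 : ℝ) ≤ ((I.filter fun i => ω ∈ A i).card : ℝ)} := by
    intro ω hω
    by_cases hg : cfgE n ω ∈ G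
    · exact Or.inl hg
    right
    have hg' : k₀ * n ≤ Metric.diam (clS (cfgE n ω) (sel n (cfgE n ω))) ∧
        c * (n : ℝ) ^ (7 / 4 : ℝ) ≤ ({v | v ∈ OutV (cfgE n ω) (sel n (cfgE n ω)) ∧
          Bulk n (κ * n) v}).ncard := by
      by_contra hcon
      exact hg hcon
    obtain ⟨hD, hcount⟩ := hg'
    refine hcount.trans ?_
    have himg : {v | v ∈ OutV (cfgE n ω) (sel n (cfgE n ω)) ∧ Bulk n (κ * n) v} ⊆
        (((I.filter fun i => ω ∈ A i).image Prod.fst : Finset (ℤ × ℤ)) : Set (ℤ × ℤ)) := by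
      rintro v ⟨hv, hvB⟩
      obtain ⟨k, hk, rfl⟩ := exists_cor hv
      obtain ⟨d, hd⟩ := exists_dir k
      have h1 := hdB _ hvB
      have hB0 : (0 : ℤ) ≤ B := by
        rw [hBdef]
        positivity
      have h2 : ω ∈ NoPin (gV k) d R r K := by
        refine noPin_of hn1 hk hd hD (by exact_mod_cast hr) (by exact_mod_cast hR) (by omega) ?_ hη hω
        rw [← hBdef]
        nlinarith
      rw [mem_coe, mem_image]
      refine ⟨(vtx k, d), ?_, rfl⟩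
      rw [mem_filter, hI, mem_product, hV, mem_filter, mem_product, mem_Icc, mem_Icc]
      refine ⟨⟨⟨⟨⟨?_, ?_⟩, ?_, ?_⟩, hvB⟩, mem_univ _⟩, h2⟩
      all_goals
        simp only
        unfold dB at h1
        omega
    have h3 := Set.ncard_le_ncard himg (Finset.finite_toSet _)
    rw [Set.ncard_coe_finset] at h3
    have h4 := h3.trans card_image_le
    exact_mod_cast h4
  refine (pr_mono _ hsub).trans ((pr_union_le _ _ _).trans ?_)
  linarith

end Pool.Agent.PercP
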