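import Pool.Agent.Lib.MP_6bd702_percw.LowDefs
import Pool.Agent.Lib.MP_6bd702_percw.RswC

/-!
# Double points of the outer perimeter: definitions

`ue p d` is a unit edge at the vertex `p` (a unit edge joins a vertex of the lattice to a
neighbouring vertex of the dual lattice). Its component in the square of radius `R` is a piece of
the loop through `ue p d`. A pinch is a vertex `a` of the lattice which is visited twice by the loop:
by the unit edge `k` of the piece and by the unit edge `k'` which is not in the piece but in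
the piece for the bigger radius `R'`; the end points of the piece on the boundary of the square of
radius `R` are far from `a`.
-/

set_option autoImplicit false

namespace Pool.Agent.PercP

open Finset Pool.Agent.Perc Pool.Agent.PercL

/-- A pinch. -/
def Pin (p : ℤ × ℤ) (d : Fin 4) (R R' ρ : ℤ) : Set Cfg :=
  {ω | ∃ (a q q' : ℤ × ℤ) (k k' : UE), par a = par p ∧ Joins k a q ∧ Joins k' a q' ∧
    k ∈ MM ω (QF p R) (ue p d) ∧ k' ∉ MM ω (QF p R) (ue p d) ∧ k' ∈ MM ω (QF p R') (ue p d) ∧
    ∀ t ∈ MM ω (QF p R) (ue p d), BdE (p.1 - R) (p.1 + R) (p.2 - R) (p.2 + R) t →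
      ¬ Wi ρ a (ua t) ∧ ¬ Wi ρ a (ub t)}

/-- Both arms to distance `R + 80 r K`, and no pinch at the radii `R + 80 r j`, `j < K`. -/
def NoPin (p : ℤ × ℤ) (d : Fin 4) (R r : ℤ) (K : ℕ) : Set Cfg :=
  {ω | ω ∈ TA p d (R + 80 * r * K) ∧
    ∀ j : ℕ, j < K → ω ∉ Pin p d (R + 80 * r * j) (R + 80 * r * (j + 1)) r}

end Pool.Agent.PercP
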