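import Pool.Agent.Lib.MP_6bd702_perdp.PinLand
import Pool.Agent.Lib.MP_6bd702_percw.LowBasic

/-!
# East tips: the resampled configuration has a pinch with positive probability (task PinEast)

`mix_pin`: `pin_land` for the rectangle of `QF (0, 0) R`, `u = (0, 0)`, `v = nb (0, 0) d`
(`ue_joins`, `inR_center`); `MM` of the mixed configuration in `QF (0, 0) R` is the one of `ω`
(`mix_SQ`); `k'` is in the component in `QF (0, 0) B` by `mem_MM_of_conn`: `Conn (mixC ..)` from the two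
pieces (faces of `SS`: value of `ω`, other faces: value of `ξ`).

`pin_east`: `pr_Blk` with `col = 0` (`v` is odd) and `pr_mono`; the window `QF (0, 0) B` contains
`RFb (R, h) (12 r)`.
-/

set_option autoImplicit false

namespace Pool.Agent.PercP

open Finset Pool.Agent.Perc Pool.Agent.PercL

namespace PinEast

theorem conn_mix_on {S : Set (ℤ × ℤ)} {ω ξ : Cfg} {p q : ℤ × ℤ} (h : Conn ω S p q) :
    Conn (mixC S ω ξ) S p q :=
  GridA.conn_congr _ (fun f hf => by simp only [mixC, if_pos hf]) h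

theorem conn_mix_off {S G : Set (ℤ × ℤ)} {ω ξ : Cfg} {p q : ℤ × ℤ} (h : Conn ξ (G \ S) p q) :
    Conn (mixC S ω ξ) (G \ S) p q :=
  GridA.conn_congr _ (fun f hf => by simp only [mixC, if_neg hf.2]) h

theorem height {ω : Cfg} {R ρ h : ℤ} {d : Fin 4} (hω : FT ω (0, 0) d R ρ (R, h, true)) :
    -R ≤ h ∧ h < R := by
  obtain ⟨-, hb, -⟩ := hω
  unfold BdE at hb
  simp only [Bool.true_eq_false, false_and, true_and, false_or] at hb
  omega

end PinEast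

open PinEast

theorem mix_pin {ω ξ : Cfg} {r R B h : ℤ} {d : Fin 4} (hr : 1 ≤ r) (hR : 20 * r ≤ R)
    (hB : R + 12 * r ≤ B) (hω : FT ω (0, 0) d R (16 * r) (R, h, true))
    (hξ : ξ ∈ Blk 0 (R, h) (3 * r)) :
    mixC (SQ ω (0, 0) d R) ω ξ ∈ Pin (0, 0) d R B r := by
  have hh := height hω
  have hx1 : ((0, 0) : ℤ × ℤ).1 + R = R := by simp
  have hω' : FarTip ω (((0, 0) : ℤ × ℤ).1 - R) (((0, 0) : ℤ × ℤ).1 + R) (((0, 0) : ℤ × ℤ).2 - R)
      (((0, 0) : ℤ × ℤ).2 + R) (ue (0, 0) d) (16 * r) (((0, 0) : ℤ × ℤ).1 + R, h, true) := by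
    rw [hx1]
    unfold FT at hω
    rw [hx1] at hω
    exact hω
  have hin := inR_center (p := (0, 0)) (d := d) (R := R) (by omega)
  have hinB := inR_center (p := (0, 0)) (d := d) (R := B) (by omega)
  have hc : ((nb (0, 0) d).1 + (nb (0, 0) d).2 - (0 + 1)) % 2 = 0 := by
    fin_cases d <;> simp [nb]
  obtain ⟨a, q, q', k, k', h1, -, h3, h4, h5, h6, h7, h8, h9, ⟨w, h10, h11⟩, h12⟩ :=
    pin_land (ue_joins (0, 0) d) hin.1 hin.2 hr (by simp only; omega) (by simp only; omega) hω' hc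
      (by rw [hx1]; exact hξ)
  have hM := (mix_SQ ω ξ (0, 0) d R).2
  have hsub : SQ ω (0, 0) d R ⊆ (QF (0, 0) B : Set (ℤ × ℤ)) := by
    intro f hf
    have hf' := SS_sub hf
    unfold QF at hf' ⊢
    rw [mem_RF'] at hf' ⊢
    simp only at hf' ⊢
    omega
  have hsub2 : (RFb (((0, 0) : ℤ × ℤ).1 + R, h) (12 * r) : Set (ℤ × ℤ)) ⊆
      (QF (0, 0) B : Set (ℤ × ℤ)) := by
    intro f hf
    rw [mem_coe, mem_RFb] at hf
    unfold QF
    rw [mem_RF']
    simp only at hf ⊢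
    omega
  have hinB' : ∀ z : ℤ × ℤ, InR (((0, 0) : ℤ × ℤ).1 - R) (((0, 0) : ℤ × ℤ).1 + R)
      (((0, 0) : ℤ × ℤ).2 - R) (((0, 0) : ℤ × ℤ).2 + R) z →
      InR (((0, 0) : ℤ × ℤ).1 - B) (((0, 0) : ℤ × ℤ).1 + B)
      (((0, 0) : ℤ × ℤ).2 - B) (((0, 0) : ℤ × ℤ).2 + B) z := by
    intro z hz
    unfold InR at hz ⊢
    simp only at hz ⊢
    omega
  refine ⟨a, q, q', k, k', h1, h3, h4, ?_, ?_, ?_, ?_⟩
  · rw [hM]; exact h7
  · rw [hM]; exact h8
  · have c1 : Conn (mixC (SQ ω (0, 0) d R) ω ξ) (QF (0, 0) B) (0, 0) a :=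
      (conn_mix_on (S := SQ ω (0, 0) d R) h9).mono hsub
    have c2 : Conn (mixC (SQ ω (0, 0) d R) ω ξ) (QF (0, 0) B) (nb (0, 0) d) q' :=
      ((conn_mix_on (S := SQ ω (0, 0) d R) h10).mono hsub).trans
        ((conn_mix_off (S := SQ ω (0, 0) d R) h11).mono fun f hf => hsub2 hf.1)
    exact mem_MM_of_conn (ue_joins (0, 0) d) hinB.1 hinB.2 h4 (hinB' a h5) (hinB' q' h6) c1 c2
  · rw [hM]; exact h12

theorem pin_east : ∃ c : ℝ, 0 < c ∧ ∀ (ω : Cfg) (r R B h : ℤ) (d : Fin 4), 1 ≤ r → 20 * r ≤ R →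
    R + 12 * r ≤ B → FT ω (0, 0) d R (16 * r) (R, h, true) →
      c ≤ pr (QF (0, 0) B) {ξ | mixC (SQ ω (0, 0) d R) ω ξ ∈ Pin (0, 0) d R B r} := by
  obtain ⟨c, hc, hB⟩ := pr_Blk
  refine ⟨c, hc, ?_⟩
  intro ω r R B h d hr hR hRB hω
  have hh := height hω
  refine (hB 0 (R, h) (3 * r) (QF (0, 0) B) (by omega) ?_).trans
    (pr_mono _ fun ξ hξ => mix_pin hr hR hRB hω hξ)
  intro f hf
  rw [mem_sdiff, mem_RFb] at hf
  unfold QF
  rw [mem_RF]
  simp only at hf ⊢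
  omega

end Pool.Agent.PercP
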