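import Pool.Agent.Lib.MP_6bd702_perdp.PinDefs
import Pool.Agent.Lib.MP_6bd702_percu2.Cross

/-!
# A dual ring around a far tip makes a pinch (task PinLand)

`side_face`: a corner `q` of a visited face `f` which has the parity of `v` and the potential of
`u`: the face has a side in the component (from a vertex `a'` with the potential of `u` and the
parity of `u` to a vertex `q₁` with the potential of `v` and the parity of `v`). So the two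
corners of `f` with the parity of `v` are `q`, `q₁` with different potentials, hence the bond of `f`
joins the two vertices of the parity of `u` (`potR_bond`), both have the potential of `u`; `a` = one of
them, `k` = side from `a` to `q₁`, `k'` = side from `a` to `q` (`potR_joins`); `SS_conn`.

`land_opp`: walking from `p₀` (on the side of `u`) to `pₙ` (on the side of `v`) in the faces of `G`
one reaches such a corner by faces off `SS` (induction on the path from the front).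

`pin_land`: the ring of `ξ` (`Blk (par v + 1) ..`) around the tip; `cross_meet` four times; `z` = common
vertex of the right and the upper crossing, `z'` = common vertex of the right and the lower crossing,
both to the right of the rectangle, joined by the right crossing (faces right of the rectangle);
from `z` to `z'` also by the upper, left and lower crossings. `χ w = if w ∈ closed rectangle then
(potR w = potR v) else` (`h < w.2` or `w.2 ≤ h` according to the potential of `(x₁, h + 1)`), as in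
`land_east_a` (`LowLandE.lean`): `χ z` and `χ z'` are different. `land` (for `he.symm`) on the path
from the vertex on the side of `u` to the one on the side of `v`, `land_opp` on the same path.
-/

set_option autoImplicit false

namespace Pool.Agent.PercP

open Finset Pool.Agent.Perc Pool.Agent.PercL

variable {ω ξ : Cfg} {x₀ x₁ y₀ y₁ : ℤ} {e : UE} {u v : ℤ × ℤ}

/-- The other two corners of a face. -/
theorem other_corners {g w : ℤ × ℤ} (hw : IsCor g w) (ω : Cfg) :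
    (∃ w', w' ≠ w ∧ IsCor g w' ∧ par w' = par w ∧ Bond ω {g} w w') ∨
    ∃ w' p p', w' ≠ w ∧ IsCor g w' ∧ par w' = par w ∧ IsCor g p ∧ IsCor g p' ∧ p ≠ p' ∧
      par p ≠ par w ∧ par p' ≠ par w ∧ Bond ω {g} p p' := by
  obtain ⟨x, y⟩ := g
  obtain ⟨w1, w2⟩ := w
  unfold IsCor at hw
  simp only at hw
  cases hω : ω (x, y) with
  | true =>
    rcases hw with ⟨rfl | rfl, rfl | rfl⟩
    · left
      exact ⟨(w1 + 1, w2 + 1), by simp, by simp [IsCor], by unfold par; simp only; omega,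
        w1, w2, rfl, Or.inl ⟨hω, Or.inl ⟨rfl, rfl⟩⟩⟩
    · right
      refine ⟨(w1 + 1, y), (w1, y), (w1 + 1, y + 1), by simp, by simp [IsCor],
        by unfold par; simp only; omega, by simp [IsCor], by simp [IsCor], by simp,
        by unfold par; simp only; omega, by unfold par; simp only; omega,
        w1, y, rfl, Or.inl ⟨hω, Or.inl ⟨rfl, rfl⟩⟩⟩
    · right
      refine ⟨(x, w2 + 1), (x, w2), (x + 1, w2 + 1), by simp, by simp [IsCor],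
        by unfold par; simp only; omega, by simp [IsCor], by simp [IsCor], by simp,
        by unfold par; simp only; omega, by unfold par; simp only; omega,
        x, w2, rfl, Or.inl ⟨hω, Or.inl ⟨rfl, rfl⟩⟩⟩
    · left
      exact ⟨(x, y), by simp, by simp [IsCor], by unfold par; simp only; omega,
        x, y, rfl, Or.inl ⟨hω, Or.inr ⟨rfl, rfl⟩⟩⟩
  | false =>
    rcases hw with ⟨rfl | rfl, rfl | rfl⟩
    · right
      refine ⟨(w1 + 1, w2 + 1), (w1, w2 + 1), (w1 + 1, w2), by simp, by simp [IsCor],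
        by unfold par; simp only; omega, by simp [IsCor], by simp [IsCor], by simp,
        by unfold par; simp only; omega, by unfold par; simp only; omega,
        w1, w2, rfl, Or.inr ⟨hω, Or.inl ⟨rfl, rfl⟩⟩⟩
    · left
      exact ⟨(w1 + 1, y), by simp, by simp [IsCor], by unfold par; simp only; omega,
        w1, y, rfl, Or.inr ⟨hω, Or.inl ⟨rfl, rfl⟩⟩⟩
    · left
      exact ⟨(x, w2 + 1), by simp, by simp [IsCor], by unfold par; simp only; omega,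
        x, w2, rfl, Or.inr ⟨hω, Or.inr ⟨rfl, rfl⟩⟩⟩
    · right
      refine ⟨(x, y), (x, y + 1), (x + 1, y), by simp, by simp [IsCor],
        by unfold par; simp only; omega, by simp [IsCor], by simp [IsCor], by simp,
        by unfold par; simp only; omega, by unfold par; simp only; omega,
        x, y, rfl, Or.inr ⟨hω, Or.inl ⟨rfl, rfl⟩⟩⟩

/-- Four corners: every corner is one of the four. -/
theorem cor_cases {g p p' w w' q : ℤ × ℤ} (hp : IsCor g p) (hp' : IsCor g p') (hw : IsCor g w)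
    (hw' : IsCor g w') (h1 : p ≠ p') (h2 : w ≠ w') (h3 : par p = par p') (h4 : par w = par w')
    (h5 : par p ≠ par w) (hq : IsCor g q) : q = p ∨ q = p' ∨ q = w ∨ q = w' := by
  obtain ⟨x, y⟩ := g
  obtain ⟨p1, p2⟩ := p
  obtain ⟨p1', p2'⟩ := p'
  obtain ⟨w1, w2⟩ := w
  obtain ⟨w1', w2'⟩ := w'
  obtain ⟨q1, q2⟩ := q
  unfold IsCor at hp hp' hw hw' hq
  unfold par at h3 h4 h5
  simp only [ne_eq, Prod.mk.injEq] at hp hp' hw hw' hq h1 h2 h3 h4 h5 ⊢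
  -- the two corners of one parity are opposite
  have o1 : p1 + p1' = 2 * x + 1 ∧ p2 + p2' = 2 * y + 1 := by clear hw hw' hq h2 h4 h5; omega
  have o2 : w1 + w1' = 2 * x + 1 ∧ w2 + w2' = 2 * y + 1 := by clear hp hp' hq h1 h3 h5; omega
  clear hp' hw' h1 h2 h3 h4
  omega

theorem side_face (he : Joins e u v) (hu : InR x₀ x₁ y₀ y₁ u) (hv : InR x₀ x₁ y₀ y₁ v)
    {f : ℤ × ℤ} (hf : f ∈ SS ω (RF x₀ x₁ y₀ y₁) e) {q : ℤ × ℤ} (hq : IsCor f q)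
    (hpar : par q = par v) (hpot : potR ω x₀ x₁ y₀ y₁ e q = potR ω x₀ x₁ y₀ y₁ e u) :
    ∃ (a q₁ : ℤ × ℤ) (k k' : UE), par a = par u ∧ IsCor f a ∧ Joins k a q₁ ∧ Joins k' a q ∧
      k ∈ MM ω (RF x₀ x₁ y₀ y₁) e ∧ k' ∉ MM ω (RF x₀ x₁ y₀ y₁) e ∧
      Conn ω (SS ω (RF x₀ x₁ y₀ y₁) e) u a := by

  have huv : potR ω x₀ x₁ y₀ y₁ e u ≠ potR ω x₀ x₁ y₀ y₁ e v :=
    (potR_joins he hu hv).1 mem_MM_self
  have hfB := SS_sub hf
  rcases other_corners hq ω with ⟨w', -, -, -, hb⟩ | ⟨w', p, p', hne, hcw', hpw', hcp, hcp',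
    hpp', hpp, hpp2, hb⟩
  · have h1 := (SS_bond he.symm hv hu hf hb hpar).1
    rw [hpot] at h1
    exact absurd h1 huv
  · have hparp : par p = par u := by
      have h1 := he.par_ne
      have h2 := par_cases p
      have h3 := par_cases u
      have h4 := par_cases v
      omega
    have hparp' : par p' = par u := by
      have h1 := he.par_ne
      have h2 := par_cases p'
      have h3 := par_cases u
      have h4 := par_cases v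
      omega
    have b1 := SS_bond he hu hv hf hb hparp
    have b2 := SS_bond he hu hv hf hb.symm' hparp'
    have hw'pot : potR ω x₀ x₁ y₀ y₁ e w' = potR ω x₀ x₁ y₀ y₁ e v := by
      by_contra hcon
      have h1 : potR ω x₀ x₁ y₀ y₁ e w' = potR ω x₀ x₁ y₀ y₁ e u := z2_of_ne hcon huv
      obtain ⟨hgF, a, haM, ha⟩ := hf
      have h2 : ∀ c, IsCor f c → potR ω x₀ x₁ y₀ y₁ e c = potR ω x₀ x₁ y₀ y₁ e u := by
        intro c hc
        rcases cor_cases hcp hcp' hq hcw' hpp' hne.symm (hparp.trans hparp'.symm) hpw'.symm hpp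
          hc with rfl | rfl | rfl | rfl
        · exact b1.1
        · exact b2.1
        · exact hpot
        · exact h1
      have h3 := (potR_joins (a := a) (Or.inl ⟨rfl, rfl⟩) (ha.cor.1.inR hgF)
        (ha.cor.2.inR hgF)).1 haM
      rw [h2 _ ha.cor.1, h2 _ ha.cor.2] at h3
      exact h3 rfl
    obtain ⟨k, -, hj⟩ := exists_side hcp hcw' (by rw [hpw']; exact hpp)
    obtain ⟨k', -, hj'⟩ := exists_side hcp hq hpp
    refine ⟨p, w', k, k', hparp, hcp, hj, hj', ?_, ?_, b1.2⟩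
    · rw [potR_joins hj (hcp.inR hfB) (hcw'.inR hfB), b1.1, hw'pot]
      exact huv
    · rw [potR_joins hj' (hcp.inR hfB) (hq.inR hfB), b1.1, hpot]
      exact fun h => h rfl

theorem land_opp {G : Set (ℤ × ℤ)} (he : Joins e u v) (hu : InR x₀ x₁ y₀ y₁ u)
    (hv : InR x₀ x₁ y₀ y₁ v) (χ : ℤ × ℤ → Prop)
    (hχ : ∀ w, InR x₀ x₁ y₀ y₁ w → (χ w ↔ potR ω x₀ x₁ y₀ y₁ e w = potR ω x₀ x₁ y₀ y₁ e v))
    (hG : ∀ g ∈ G, g ∉ (RF x₀ x₁ y₀ y₁ : Set (ℤ × ℤ)) → ∀ w w', IsCor g w → IsCor g w' →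
      (χ w ↔ χ w'))
    {p₀ pₙ : ℤ × ℤ} (hpath : Conn ξ G p₀ pₙ) (h0 : ¬ χ p₀) (hn : χ pₙ) :
    ∃ f ∈ G, f ∈ SS ω (RF x₀ x₁ y₀ y₁) e ∧ ∃ q, IsCor f q ∧ par q = par p₀ ∧
      potR ω x₀ x₁ y₀ y₁ e q = potR ω x₀ x₁ y₀ y₁ e u ∧
      Conn ξ (G \ SS ω (RF x₀ x₁ y₀ y₁) e) p₀ q := by

  have huv : potR ω x₀ x₁ y₀ y₁ e u ≠ potR ω x₀ x₁ y₀ y₁ e v :=
    (potR_joins he hu hv).1 mem_MM_self
  have key : ∀ q, Conn ξ G p₀ q → (Conn ξ (G \ SS ω (RF x₀ x₁ y₀ y₁) e) p₀ q ∧ ¬ χ q) ∨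
      ∃ w g, Conn ξ (G \ SS ω (RF x₀ x₁ y₀ y₁) e) p₀ w ∧ ¬ χ w ∧ g ∈ G ∧
        g ∈ SS ω (RF x₀ x₁ y₀ y₁) e ∧ IsCor g w := by
    intro q hq
    induction hq with
    | refl => exact Or.inl ⟨Relation.ReflTransGen.refl, h0⟩
    | @tail q q' _ hb ih =>
      rcases ih with ⟨h1, h2⟩ | h
      · obtain ⟨g, hg, hbg, hcq, hcq'⟩ := hb.exists_face
        by_cases hgS : g ∈ SS ω (RF x₀ x₁ y₀ y₁) e
        · exact Or.inr ⟨q, g, h1, h2, hg, hgS, hcq⟩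
        · left
          refine ⟨h1.tail (hbg.of_single ⟨hg, hgS⟩), ?_⟩
          by_cases hgF : g ∈ (RF x₀ x₁ y₀ y₁ : Set (ℤ × ℤ))
          · rw [hχ _ (hcq'.inR hgF), potR_fresh hgF hgS hcq' hcq, ← hχ _ (hcq.inR hgF)]
            exact h2
          · rw [hG g hg hgF _ _ hcq' hcq]
            exact h2
      · exact Or.inr h
  rcases key pₙ hpath with h | ⟨w, g, h1, h2, h3, h4, h5⟩
  · exact absurd hn h.2
  · refine ⟨g, h3, h4, w, h5, h1.par_eq.symm, ?_, h1⟩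
    rw [hχ _ (h5.inR (SS_sub h4))] at h2
    exact z2_of_ne h2 huv

/-- Nearest point of the rectangle. -/
def clamp (x₀ x₁ y₀ y₁ : ℤ) (w : ℤ × ℤ) : ℤ × ℤ := (max x₀ (min x₁ w.1), max y₀ (min y₁ w.2))

theorem clamp_of_inR {w : ℤ × ℤ} (h : InR x₀ x₁ y₀ y₁ w) : clamp x₀ x₁ y₀ y₁ w = w := by
  obtain ⟨a, b⟩ := w
  unfold InR at h
  unfold clamp
  simp only at h ⊢
  rw [min_eq_right h.2.1, max_eq_right h.1, min_eq_right h.2.2.2, max_eq_right h.2.2.1]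

/-- The extended potential. -/
noncomputable def chi (ω : Cfg) (x₀ x₁ y₀ y₁ : ℤ) (e : UE) (w : ℤ × ℤ) : ZMod 2 :=
  potR ω x₀ x₁ y₀ y₁ e (clamp x₀ x₁ y₀ y₁ w)

theorem chi_up {r ρ h : ℤ} (hρ : 4 * r ≤ ρ) (hfar : FarTip ω x₀ x₁ y₀ y₁ e ρ (x₁, h, true))
    (hr : 1 ≤ r) (hx : x₀ + ρ < x₁) {w : ℤ × ℤ} (h1 : x₁ - 4 * r ≤ w.1)
    (h2 : w.1 ≤ x₁ + 4 * r) (h3 : h < w.2) (h4 : w.2 ≤ h + 4 * r) (h5 : x₁ ≤ w.1 ∨ y₁ ≤ w.2) :
    chi ω x₀ x₁ y₀ y₁ e w = potR ω x₀ x₁ y₀ y₁ e (x₁, h + 1) := by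
  have hh : y₀ ≤ h ∧ h < y₁ := by
    have := hfar.2.1
    unfold BdE at this; simp at this; exact this
  obtain ⟨w1, w2⟩ := w
  simp only at h1 h2 h3 h4 h5
  unfold chi
  refine farTip_up hfar (by omega) (by omega) ?_ ?_ ?_
  · unfold OnBd clamp; simp only; omega
  · unfold Wi clamp; simp only; omega
  · unfold clamp; simp only; omega

theorem chi_down {r ρ h : ℤ} (hρ : 4 * r ≤ ρ) (hfar : FarTip ω x₀ x₁ y₀ y₁ e ρ (x₁, h, true))
    (hr : 1 ≤ r) (hx : x₀ + ρ < x₁) {w : ℤ × ℤ} (h1 : x₁ - 4 * r ≤ w.1)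
    (h2 : w.1 ≤ x₁ + 4 * r) (h3 : h - 4 * r ≤ w.2) (h4 : w.2 ≤ h) (h5 : x₁ ≤ w.1 ∨ w.2 ≤ y₀) :
    chi ω x₀ x₁ y₀ y₁ e w = potR ω x₀ x₁ y₀ y₁ e (x₁, h) := by
  have hh : y₀ ≤ h ∧ h < y₁ := by
    have := hfar.2.1
    unfold BdE at this; simp at this; exact this
  obtain ⟨w1, w2⟩ := w
  simp only at h1 h2 h3 h4 h5
  unfold chi
  refine farTip_down hfar (by omega) (by omega) ?_ ?_ ?_ (by omega)
  · unfold OnBd clamp; simp only; omega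
  · unfold Wi clamp; simp only; omega
  · unfold clamp; simp only; omega

/-- The faces of the three rectangles which do not meet the ray of the tip. -/
def K3 (x₁ h r : ℤ) : Set (ℤ × ℤ) :=
  (RF (x₁ - 4 * r) (x₁ + 4 * r) (h + r) (h + 4 * r) : Set (ℤ × ℤ)) ∪
    ((RF (x₁ - 4 * r) (x₁ - r) (h - 4 * r) (h + 4 * r) : Set (ℤ × ℤ)) ∪
      (RF (x₁ - 4 * r) (x₁ + 4 * r) (h - 4 * r) (h - r) : Set (ℤ × ℤ)))

theorem mem_K3 {x₁ h r : ℤ} (hr : 1 ≤ r) {g : ℤ × ℤ} (hg : g ∈ K3 x₁ h r) :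
    (x₁ - 4 * r ≤ g.1 ∧ g.1 < x₁ + 4 * r ∧ h - 4 * r ≤ g.2 ∧ g.2 < h + 4 * r) ∧
      (h + r ≤ g.2 ∨ g.2 < h - r ∨ g.1 < x₁ - r) := by
  rcases hg with hg | hg | hg <;> rw [mem_RF'] at hg <;> omega

theorem chi_const {r ρ h : ℤ} (hρ : 4 * r ≤ ρ) (hfar : FarTip ω x₀ x₁ y₀ y₁ e ρ (x₁, h, true))
    (hr : 1 ≤ r) (hx : x₀ + ρ < x₁) {g : ℤ × ℤ} (hg : g ∈ K3 x₁ h r)
    (hgB : g ∉ (RF x₀ x₁ y₀ y₁ : Set (ℤ × ℤ))) {w w' : ℤ × ℤ} (hw : IsCor g w)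
    (hw' : IsCor g w') : chi ω x₀ x₁ y₀ y₁ e w = chi ω x₀ x₁ y₀ y₁ e w' := by
  have hh : y₀ ≤ h ∧ h < y₁ := by
    have := hfar.2.1
    unfold BdE at this; simp at this; exact this
  have key : (∀ w, IsCor g w → x₁ - 4 * r ≤ w.1 ∧ w.1 ≤ x₁ + 4 * r ∧ h < w.2 ∧ w.2 ≤ h + 4 * r ∧
      (x₁ ≤ w.1 ∨ y₁ ≤ w.2)) ∨ ∀ w, IsCor g w → x₁ - 4 * r ≤ w.1 ∧ w.1 ≤ x₁ + 4 * r ∧
      h - 4 * r ≤ w.2 ∧ w.2 ≤ h ∧ (x₁ ≤ w.1 ∨ w.2 ≤ y₀) := by
    rw [mem_RF'] at hgB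
    have hm := mem_K3 hr hg
    clear hfar hw hw' hg
    by_cases hu : h < g.2
    · left
      intro w hw
      unfold IsCor at hw
      omega
    · right
      intro w hw
      unfold IsCor at hw
      omega
  rcases key with key | key
  · obtain ⟨a1, a2, a3, a4, a5⟩ := key w hw
    obtain ⟨b1, b2, b3, b4, b5⟩ := key w' hw'
    rw [chi_up hρ hfar hr hx a1 a2 a3 a4 a5, chi_up hρ hfar hr hx b1 b2 b3 b4 b5]
  · obtain ⟨a1, a2, a3, a4, a5⟩ := key w hw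
    obtain ⟨b1, b2, b3, b4, b5⟩ := key w' hw'
    rw [chi_down hρ hfar hr hx a1 a2 a3 a4 a5, chi_down hρ hfar hr hx b1 b2 b3 b4 b5]

/-- The tips are far from the faces of the three rectangles. -/
theorem K3_far {r ρ h δ : ℤ} (hr : 1 ≤ r) (hδ : δ ≤ r - 2) (hρ : 5 * r ≤ ρ)
    (hfar : FarTip ω x₀ x₁ y₀ y₁ e ρ (x₁, h, true)) {g : ℤ × ℤ} (hg : g ∈ K3 x₁ h r)
    {t : UE} (ht : t ∈ MM ω (RF x₀ x₁ y₀ y₁) e) (htb : BdE x₀ x₁ y₀ y₁ t) {w q : ℤ × ℤ}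
    (hw : IsCor g w) (hq : q = ua t ∨ q = ub t) : ¬ Wi δ w q := by
  intro hwi
  have hgr := mem_K3 hr hg
  unfold IsCor at hw
  unfold Wi at hwi
  by_cases htt : t = (x₁, h, true)
  · subst htt
    rcases hq with rfl | rfl
    · rw [ua_mk] at hwi
      simp only at hwi
      omega
    · rw [ub_true] at hwi
      simp only at hwi
      omega
  · have h3 := hfar.2.2 t ht htb
    rw [ua_mk] at h3
    have h4 : ¬ (Wi ρ (x₁, h) (ua t) ∧ Wi ρ (x₁, h) (ub t)) := fun h5 =>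
      htt (h3 h5.1 h5.2)
    have h5 : Wi 1 (ua t) (ub t) ∧ Wi 1 (ub t) (ua t) := by
      obtain ⟨t1, t2, b⟩ := t
      unfold Wi
      cases b <;> simp [ua, ub] <;> omega
    unfold Wi at h4 h5
    simp only at h4
    have h6 : ¬ (x₁ - (ρ - 1) ≤ q.1 ∧ q.1 ≤ x₁ + (ρ - 1) ∧ h - (ρ - 1) ≤ q.2 ∧
        q.2 ≤ h + (ρ - 1)) := by
      clear hgr hwi hw
      intro h7
      apply h4
      rcases hq with rfl | rfl <;> omega
    clear h3 h4 h5 ht htb htt hq hfar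
    omega

/-- The paths of the four crossings. -/
theorem blk_paths {x₁ h r col : ℤ} (hr : 1 ≤ r) (hblk : ξ ∈ Blk col (x₁, h) r) :
    ∃ z z' : ℤ × ℤ, (z.1 + z.2 - (col + 1)) % 2 = 0 ∧
      (x₁ + r ≤ z.1 ∧ z.1 ≤ x₁ + 4 * r ∧ h + r ≤ z.2 ∧ z.2 ≤ h + 4 * r) ∧
      (x₁ + r ≤ z'.1 ∧ z'.1 ≤ x₁ + 4 * r ∧ h - 4 * r ≤ z'.2 ∧ z'.2 ≤ h - r) ∧
      Conn ξ (K3 x₁ h r) z z' ∧
      Conn ξ (RF (x₁ + r) (x₁ + 4 * r) (h - 4 * r) (h + 4 * r)) z' z := by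
  obtain ⟨⟨a, a', a1, a2, a3, a4, a5, a6⟩, ⟨b, b', b1, b2, b3, b4, b5, b6⟩,
    ⟨c, c', c1, c2, c3, c4, c5, c6⟩, ⟨d, d', d1, d2, d3, d4, d5, d6⟩⟩ := hblk
  simp only at a1 a2 a3 a4 a6 b1 b2 b3 b4 b6 c1 c2 c3 c4 c6 d1 d2 d3 d4 d6
  have i1 : x₁ - 4 * r ≤ x₁ + r := by omega
  have i2 : x₁ + r < x₁ + 4 * r := by omega
  have i3 : x₁ - 4 * r < x₁ - r := by omega
  have i4 : x₁ - r ≤ x₁ + 4 * r := by omega
  have j1 : h - 4 * r ≤ h + r := by omega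
  have j2 : h + r < h + 4 * r := by omega
  have j3 : h - 4 * r < h - r := by omega
  have j4 : h - r ≤ h + 4 * r := by omega
  have k1 : (a.1 + a.2) % 2 = (d.1 + d.2) % 2 := by clear * - a5 d5; omega
  have k2 : (b.1 + b.2) % 2 = (d.1 + d.2) % 2 := by clear * - b5 d5; omega
  have k3 : (a.1 + a.2) % 2 = (c.1 + c.2) % 2 := by clear * - a5 c5; omega
  have k4 : (b.1 + b.2) % 2 = (c.1 + c.2) % 2 := by clear * - b5 c5; omega
  -- the four meeting points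
  obtain ⟨z, z1, z2, z3, z4, z5, z6⟩ := PercT.cross_meet i1 i2 le_rfl j1 j2 le_rfl
    ⟨a1, a2, a3⟩ a4 ⟨d1, d2, d3⟩ d4 k1 a6 d6
  obtain ⟨z', z1', z2', z3', z4', z5', z6'⟩ := PercT.cross_meet i1 i2 le_rfl le_rfl j3 j4
    ⟨b1, b2, b3⟩ b4 ⟨d1, d2, d3⟩ d4 k2 b6 d6
  obtain ⟨m, -, -, -, -, m5, m6⟩ := PercT.cross_meet le_rfl i3 i4 j1 j2 le_rfl
    ⟨a1, a2, a3⟩ a4 ⟨c1, c2, c3⟩ c4 k3 a6 c6
  obtain ⟨m', -, -, -, -, m5', m6'⟩ := PercT.cross_meet le_rfl i3 i4 le_rfl j3 j4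
    ⟨b1, b2, b3⟩ b4 ⟨c1, c2, c3⟩ c4 k4 b6 c6
  have s1 : (RF (x₁ - 4 * r) (x₁ + 4 * r) (h + r) (h + 4 * r) : Set (ℤ × ℤ)) ⊆ K3 x₁ h r :=
    Set.subset_union_left
  have s2 : (RF (x₁ - 4 * r) (x₁ - r) (h - 4 * r) (h + 4 * r) : Set (ℤ × ℤ)) ⊆ K3 x₁ h r :=
    fun f hf => Or.inr (Or.inl hf)
  have s3 : (RF (x₁ - 4 * r) (x₁ + 4 * r) (h - 4 * r) (h - r) : Set (ℤ × ℤ)) ⊆ K3 x₁ h r :=
    fun f hf => Or.inr (Or.inr hf)
  have hp := Conn.parity z5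
  exact ⟨z, z', by clear * - hp a5; omega, ⟨z1, z2, z3, z4⟩, ⟨z1', z2', z3', z4'⟩,
    (((z5.mono s1).symm.trans (m5.mono s1)).trans ((m6.mono s2).symm.trans (m6'.mono s2))).trans
      ((m5'.mono s3).symm.trans (z5'.mono s3)), z6'.symm.trans z6⟩

theorem pin_land (he : Joins e u v) (hu : InR x₀ x₁ y₀ y₁ u) (hv : InR x₀ x₁ y₀ y₁ v) {h r c : ℤ}
    (hr : 1 ≤ r) (hx : x₀ + 40 * r ≤ x₁) (hy : y₀ + 40 * r ≤ y₁)
    (hfar : FarTip ω x₀ x₁ y₀ y₁ e (16 * r) (x₁, h, true)) (hc : (v.1 + v.2 - (c + 1)) % 2 = 0)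
    (hξ : ξ ∈ Blk c (x₁, h) (3 * r)) :
    ∃ (a q q' : ℤ × ℤ) (k k' : UE), par a = par u ∧ par q' = par v ∧ Joins k a q ∧ Joins k' a q' ∧
      InR x₀ x₁ y₀ y₁ a ∧ InR x₀ x₁ y₀ y₁ q' ∧
      k ∈ MM ω (RF x₀ x₁ y₀ y₁) e ∧ k' ∉ MM ω (RF x₀ x₁ y₀ y₁) e ∧
      Conn ω (SS ω (RF x₀ x₁ y₀ y₁) e) u a ∧
      (∃ w, Conn ω (SS ω (RF x₀ x₁ y₀ y₁) e) v w ∧
        Conn ξ ((RFb (x₁, h) (12 * r) : Set (ℤ × ℤ)) \ SS ω (RF x₀ x₁ y₀ y₁) e) w q') ∧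
      ∀ t ∈ MM ω (RF x₀ x₁ y₀ y₁) e, BdE x₀ x₁ y₀ y₁ t → ¬ Wi r a (ua t) ∧ ¬ Wi r a (ub t) := by
  have hh : y₀ ≤ h ∧ h < y₁ := by
    have := hfar.2.1
    unfold BdE at this; simp at this; exact this
  have hr3 : 1 ≤ 3 * r := by omega
  have hρ : 4 * (3 * r) ≤ 16 * r := by omega
  have hx' : x₀ + 16 * r < x₁ := by omega
  have huv : potR ω x₀ x₁ y₀ y₁ e u ≠ potR ω x₀ x₁ y₀ y₁ e v :=
    (potR_joins he hu hv).1 mem_MM_self
  obtain ⟨z, z', zc, ⟨z1, z2, z3, z4⟩, ⟨z1', z2', z3', z4'⟩, hP, hQ⟩ := blk_paths hr3 hξ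
  have hne : potR ω x₀ x₁ y₀ y₁ e (x₁, h) ≠ potR ω x₀ x₁ y₀ y₁ e (x₁, h + 1) :=
    (potR_joins (a := (x₁, h, true)) (p := (x₁, h)) (q := (x₁, h + 1))
      (by simp [Joins, ua, ub]) (by unfold InR; simp only; omega)
      (by unfold InR; simp only; omega)).1 hfar.1
  have hzz : chi ω x₀ x₁ y₀ y₁ e z ≠ chi ω x₀ x₁ y₀ y₁ e z' := by
    rw [chi_up hρ hfar hr3 hx' (by omega) z2 (by omega) z4 (Or.inl (by omega)),
      chi_down hρ hfar hr3 hx' (by omega) z2' z3' (by omega) (Or.inl (by omega))]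
    exact hne.symm
  have hzpar : par z = par v := by
    unfold par
    clear * - zc hc
    omega
  have hzpar' : par z' = par v := by rw [← hzpar]; exact hP.par_eq.symm
  -- the path from the side of `u` to the side of `v`
  have main : ∀ z z' : ℤ × ℤ, par z = par v → par z' = par v → Conn ξ (K3 x₁ h (3 * r)) z z' →
      Conn ξ (RF (x₁ + 3 * r) (x₁ + 4 * (3 * r)) (h - 4 * (3 * r)) (h + 4 * (3 * r))) z' z →
      chi ω x₀ x₁ y₀ y₁ e z ≠ potR ω x₀ x₁ y₀ y₁ e v →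
      chi ω x₀ x₁ y₀ y₁ e z' = potR ω x₀ x₁ y₀ y₁ e v →
      ∃ (a q q' : ℤ × ℤ) (k k' : UE), par a = par u ∧ par q' = par v ∧ Joins k a q ∧
        Joins k' a q' ∧ InR x₀ x₁ y₀ y₁ a ∧ InR x₀ x₁ y₀ y₁ q' ∧
        k ∈ MM ω (RF x₀ x₁ y₀ y₁) e ∧ k' ∉ MM ω (RF x₀ x₁ y₀ y₁) e ∧
        Conn ω (SS ω (RF x₀ x₁ y₀ y₁) e) u a ∧
        (∃ w, Conn ω (SS ω (RF x₀ x₁ y₀ y₁) e) v w ∧
          Conn ξ ((RFb (x₁, h) (12 * r) : Set (ℤ × ℤ)) \ SS ω (RF x₀ x₁ y₀ y₁) e) w q') ∧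
        ∀ t ∈ MM ω (RF x₀ x₁ y₀ y₁) e, BdE x₀ x₁ y₀ y₁ t →
          ¬ Wi r a (ua t) ∧ ¬ Wi r a (ub t) := by
    clear hzz hzpar hzpar' hP hQ zc z1 z2 z3 z4 z1' z2' z3' z4' z z'
    intro z z' hz hz' hP hQ h0 hn
    set χ : ℤ × ℤ → Prop := fun w => chi ω x₀ x₁ y₀ y₁ e w = potR ω x₀ x₁ y₀ y₁ e v with hχ
    have hχ1 : ∀ w, InR x₀ x₁ y₀ y₁ w →
        (χ w ↔ potR ω x₀ x₁ y₀ y₁ e w = potR ω x₀ x₁ y₀ y₁ e v) := fun w hw => by
      change chi ω x₀ x₁ y₀ y₁ e w = _ ↔ _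
      unfold chi
      rw [clamp_of_inR hw]
    have hG : ∀ g ∈ K3 x₁ h (3 * r), g ∉ (RF x₀ x₁ y₀ y₁ : Set (ℤ × ℤ)) → ∀ w w', IsCor g w →
        IsCor g w' → (χ w ↔ χ w') := fun g hg hgB w w' hw hw' => by
      rw [hχ]
      simp only
      rw [chi_const hρ hfar hr3 hx' hg hgB hw hw']
    obtain ⟨w, c1, c2⟩ := land he.symm hv hu χ hχ1 hG hz' hP h0 hn
    obtain ⟨f, hfG, hfS, q', hfq, hq'par, hq'pot, c3⟩ := land_opp he hu hv χ hχ1 hG hP h0 hn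
    obtain ⟨a, q₁, k, k', ha1, ha2, hj, hj', hk, hk', ca⟩ :=
      side_face he hu hv hfS hfq (hq'par.trans hz) hq'pot
    have hsub : K3 x₁ h (3 * r) ⊆ (RFb (x₁, h) (12 * r) : Set (ℤ × ℤ)) := by
      intro g hg
      have := mem_K3 hr3 hg
      rw [mem_coe, mem_RFb]
      simp only
      omega
    refine ⟨a, q₁, q', k, k', ha1, hq'par.trans hz, hj, hj', ha2.inR (SS_sub hfS),
      hfq.inR (SS_sub hfS), hk, hk', ca, ⟨w, c1, ?_⟩, ?_⟩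
    · have i1 : K3 x₁ h (3 * r) \ SS ω (RF x₀ x₁ y₀ y₁) e ⊆
          (RFb (x₁, h) (12 * r) : Set (ℤ × ℤ)) \ SS ω (RF x₀ x₁ y₀ y₁) e := fun g hg =>
        ⟨hsub hg.1, hg.2⟩
      have i2 : (RF (x₁ + 3 * r) (x₁ + 4 * (3 * r)) (h - 4 * (3 * r)) (h + 4 * (3 * r)) :
          Set (ℤ × ℤ)) ⊆ (RFb (x₁, h) (12 * r) : Set (ℤ × ℤ)) \ SS ω (RF x₀ x₁ y₀ y₁) e := by
        intro g hg
        rw [mem_RF'] at hg
        refine ⟨?_, fun hgS => ?_⟩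
        · rw [mem_coe, mem_RFb]
          simp only
          omega
        · have h1 := SS_sub hgS
          rw [mem_RF'] at h1
          omega
      exact (c2.mono i1).trans ((hQ.mono i2).trans (c3.mono i1))
    · intro t ht htb
      exact ⟨K3_far hr3 (by omega) (by omega) hfar hfG ht htb ha2 (Or.inl rfl),
        K3_far hr3 (by omega) (by omega) hfar hfG ht htb ha2 (Or.inr rfl)⟩
  by_cases h1 : chi ω x₀ x₁ y₀ y₁ e z = potR ω x₀ x₁ y₀ y₁ e v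
  · refine main z' z hzpar' hzpar hP.symm hQ.symm ?_ h1
    rw [← h1]
    exact hzz.symm
  · refine main z z' hzpar hzpar' hP hQ h1 ?_
    exact z2_of_ne hzz.symm fun h2 => h1 h2.symm

end Pool.Agent.PercP
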