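import Pool.Agent.Lib.MP_6bd702_perdp.PinDefs
import Pool.Agent.Lib.MP_6bd702_percw.Trans
import Pool.Agent.Lib.MP_6bd702_percd.Base
import Pool.Agent.Lib.MP_6bd702_percD.OuterLoop

/-!
# A pinch gives a double point of the outer loop
-/

set_option autoImplicit false

namespace Pool.Agent.PercP

open Finset
open Pool.Agent.MP_6bd702.H23 (Ed)
open Pool.Agent.Perc Pool.Agent.PercL Pool.Agent.PercD
open Pool.Agent.PercU (Cor vtx fce qry qryb rot adv rotb advb nxt prv nxtE)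
open Pool.Agent.PercX60 (gV gF gB gT phiF dB Sn)
open Pool.Agent.PercW (kap)

theorem exists_dir (k : Cor) : ∃ d : Fin 4, kap k = ue (gV k) d := by
  obtain ⟨x, y, _ | _, _ | _⟩ := k
  · exact ⟨2, by simp [kap, ue, gV, phiV, vtx]⟩
  · exact ⟨3, by simp [kap, ue, gV, phiV, vtx]⟩
  · exact ⟨1, by simp [kap, ue, gV, phiV, vtx]⟩
  · exact ⟨0, by simp [kap, ue, gV, phiV, vtx]⟩

namespace PinOrb

theorem par_gV (k : Cor) : par (gV k) = 0 := by
  obtain ⟨x, y, b, c⟩ := k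
  unfold par gV phiV vtx
  simp only
  omega

theorem par_gF (k : Cor) : par (gF k) = 1 := by
  unfold par gF phiF
  simp only
  omega

/-- The even end of the unit edge of a corner. -/
theorem eq_gV {k : Cor} {a q : ℤ × ℤ} (h : Joins (kap k) a q) (ha : par a = 0) : a = gV k := by
  have h1 := Pool.Agent.PercW.joins_kap k
  have h2 := par_gF k
  rcases h with ⟨h, -⟩ | ⟨h, -⟩ <;> rcases h1 with ⟨h3, h4⟩ | ⟨h3, h4⟩
  · rw [h, h3]
  · rw [h, ← h4, h2] at ha; exact absurd ha (by norm_num)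
  · rw [h, ← h4, h2] at ha; exact absurd ha (by norm_num)
  · rw [h, h3]

theorem gV_inj {k k' : Cor} (h : gV k = gV k') : vtx k = vtx k' := by
  unfold gV phiV at h
  simp only [Prod.mk.injEq] at h
  apply Prod.ext <;> omega

/-- Far in the face grid: far in the plane. -/
theorem dist_of_not_wi {ρ : ℤ} {k k' : Cor} (h : ¬ Wi ρ (gV k) (gV k')) :
    (ρ / 2 : ℝ) ≤ dist (toC (vtx k)) (toC (vtx k')) := by
  unfold Wi gV phiV at h
  simp only at h
  set x : ℤ := (vtx k).1 with hx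
  set y : ℤ := (vtx k).2 with hy
  set x' : ℤ := (vtx k').1 with hx'
  set y' : ℤ := (vtx k').2 with hy'
  have h1 : ρ ≤ |x - x'| + |y - y'| := by
    rcases abs_cases (x - x') with ⟨e1, _⟩ | ⟨e1, _⟩ <;>
      rcases abs_cases (y - y') with ⟨e2, _⟩ | ⟨e2, _⟩ <;> rw [e1, e2] <;> omega
  have h2 : (ρ : ℝ) ≤ |(x : ℝ) - x'| + |(y : ℝ) - y'| := by exact_mod_cast h1
  rw [dist_eq_norm]
  have h3 : |(x : ℝ) - x'| ≤ ‖toC (vtx k) - toC (vtx k')‖ := by
    have := Complex.abs_re_le_norm (toC (vtx k) - toC (vtx k'))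
    simpa [toC] using this
  have h4 : |(y : ℝ) - y'| ≤ ‖toC (vtx k) - toC (vtx k')‖ := by
    have := Complex.abs_im_le_norm (toC (vtx k) - toC (vtx k'))
    simpa [toC] using this
  linarith

theorem inE_ue (p : ℤ × ℤ) (d : Fin 4) {R : ℤ} (hR : 1 ≤ R) : InE p R (ue p d) := by
  fin_cases d <;> simp [InE, InR, ue, ua, ub] <;> omega

/-- A corner whose unit edge is in the component, next to one whose unit edge is not. -/
theorem far_of_step {T : Set Ed} {p : ℤ × ℤ} {d : Fin 4} {R ρ : ℤ} (hR : 1 ≤ R) {c c' c₁ : Cor}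
    {f : ℤ × ℤ} (hm : Mt (gT T) f (kap c) (kap c')) (hc : kap c ∈ MM (gT T) (QF p R) (ue p d))
    (hc' : kap c' ∉ MM (gT T) (QF p R) (ue p d))
    (hfar : ∀ t ∈ MM (gT T) (QF p R) (ue p d), BdE (p.1 - R) (p.1 + R) (p.2 - R) (p.2 + R) t →
      ¬ Wi ρ (gV c₁) (ua t) ∧ ¬ Wi ρ (gV c₁) (ub t)) :
    (ρ / 2 : ℝ) ≤ dist (toC (vtx c₁)) (toC (vtx c)) := by
  have hf : f ∉ (BR p R : Set (ℤ × ℤ)) := fun hf => hc' (MM_step hf hm hc)
  have hin : InE p R (kap c) := MM_inE (inE_ue p d hR) hc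
  have hb := hfar _ hc (bd_of_side hin hm.left hf)
  apply dist_of_not_wi
  rcases Pool.Agent.PercW.joins_kap c with ⟨h, -⟩ | ⟨h, -⟩
  · rw [h]; exact hb.1
  · rw [h]; exact hb.2

end PinOrb

open PinOrb

theorem pin_orb {n : ℕ} {T : Finset Edg} (hT : T ⊆ boxE n) {u : ℤ × ℤ} {k : Cor}
    (h1 : vtx k ∈ clV T u) (h2 : Outer T u (fce k)) {d : Fin 4} (hd : kap k = ue (gV k) d)
    {R R' ρ : ℤ} (hR : 1 ≤ R) (hRR : R ≤ R') (hρ : 1 ≤ ρ)
    (hω : gT (T : Set Ed) ∈ Pin (gV k) d R R' ρ) :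
    outerLoop n T u ∈ Loop.Dbl ((ρ / 2 : ℝ) / n) := by
  obtain ⟨a, q, q', k₁, k', hpar, hj, hj', hk1, hk', hk'', hfar⟩ := hω
  -- the two corners
  have o1 : k₁ ∈ kap '' PercO.Orb (T : Set Ed) k := by
    rw [← hd] at hk1; exact Pool.Agent.PercW.MM_sub_orb hk1
  have o2 : k' ∈ kap '' PercO.Orb (T : Set Ed) k := by
    rw [← hd] at hk''; exact Pool.Agent.PercW.MM_sub_orb hk''
  obtain ⟨c₁, ho1, rfl⟩ := o1
  obtain ⟨c₂, ho2, rfl⟩ := o2
  have hpa : par a = 0 := by rw [hpar, par_gV]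
  have ha1 : a = gV c₁ := eq_gV hj hpa
  have ha2 : a = gV c₂ := eq_gV hj' hpa
  have hvtx : vtx c₁ = vtx c₂ := gV_inj (ha1.symm.trans ha2)
  rw [ha1] at hfar
  -- outer corners
  have horb := PercO.orb_eq_Oc (PercO.boxE_sub hT) (PercO.mem_Oc.2 ⟨h1, h2⟩)
  rw [horb] at ho1 ho2
  obtain ⟨m1, m2⟩ := PercO.mem_Oc.1 ho1
  -- the period
  have hfin := PercO.finite_Kc (v := u) (PercO.boxE_sub hT)
  have hper : ∃ N : ℕ, 0 < N ∧ (nxt (T : Set Ed))^[N] c₁ = c₁ :=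
    PercO.exists_period ho1.1 hfin
  classical
  obtain ⟨N, hN, hmin⟩ : ∃ N : ℕ, (0 < N ∧ (nxt (T : Set Ed))^[N] c₁ = c₁) ∧
      ∀ m, 0 < m → m < N → (nxt (T : Set Ed))^[m] c₁ ≠ c₁ :=
    ⟨Nat.find hper, Nat.find_spec hper, fun m hm hm' h => Nat.find_min hper hm' ⟨hm, h⟩⟩
  obtain ⟨hN0, hN1⟩ := hN
  -- the second corner as an iterate of the first
  obtain ⟨j, hjN, hj2⟩ : ∃ j < N, (nxt (T : Set Ed))^[j] c₁ = c₂ := by
    obtain ⟨j, hj⟩ := PercO.outer_orbit (PercO.boxE_sub hT) ho1 ho2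
    refine ⟨j % N, Nat.mod_lt _ hN0, ?_⟩
    have hp : Function.IsPeriodicPt (nxt (T : Set Ed)) N c₁ := hN1
    rw [hp.iterate_mod_apply, hj]
  set M := MM (gT (T : Set Ed)) (QF (gV k) R) (ue (gV k) d) with hM
  have hj0 : 0 < j := by
    rcases Nat.eq_zero_or_pos j with h | h
    · rw [h] at hj2
      have h3 : c₁ = c₂ := hj2
      rw [← h3] at hk'
      exact absurd hk1 hk'
    · exact h
  -- forward exit
  have hF : ∃ i, kap ((nxt (T : Set Ed))^[i + 1] c₁) ∉ M :=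
    ⟨j - 1, by rw [Nat.sub_add_cancel hj0, hj2]; exact hk'⟩
  obtain ⟨A, hA1, hA2, hA3⟩ : ∃ A, A + 1 ≤ j ∧ kap ((nxt (T : Set Ed))^[A] c₁) ∈ M ∧
      kap ((nxt (T : Set Ed))^[A + 1] c₁) ∉ M := by
    refine ⟨Nat.find hF, ?_, ?_, Nat.find_spec hF⟩
    · have : Nat.find hF ≤ j - 1 :=
        Nat.find_min' hF (by rw [Nat.sub_add_cancel hj0, hj2]; exact hk')
      omega
    · rcases Nat.eq_zero_or_pos (Nat.find hF) with h | h
      · rw [h]; exact hk1
      · have h3 := Nat.find_min hF (m := Nat.find hF - 1) (by omega)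
        rw [Nat.sub_add_cancel h, not_not] at h3
        exact h3
  -- backward exit
  have hB : ∃ i, kap ((nxt (T : Set Ed))^[N - (i + 1)] c₁) ∉ M :=
    ⟨N - j - 1, by rw [show N - (N - j - 1 + 1) = j by omega, hj2]; exact hk'⟩
  obtain ⟨B, hB1, hB2, hB3⟩ : ∃ B, B + j + 1 ≤ N ∧ kap ((nxt (T : Set Ed))^[N - B] c₁) ∈ M ∧
      kap ((nxt (T : Set Ed))^[N - (B + 1)] c₁) ∉ M := by
    refine ⟨Nat.find hB, ?_, ?_, Nat.find_spec hB⟩
    · have : Nat.find hB ≤ N - j - 1 :=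
        Nat.find_min' hB (by rw [show N - (N - j - 1 + 1) = j by omega, hj2]; exact hk')
      omega
    · rcases Nat.eq_zero_or_pos (Nat.find hB) with h | h
      · rw [h, Nat.sub_zero, hN1]; exact hk1
      · have h3 := Nat.find_min hB (m := Nat.find hB - 1) (by omega)
        rw [Nat.sub_add_cancel h, not_not] at h3
        exact h3
  refine outerLoop_mem_Dbl hT m1 m2 (i := 0) (a := A) (j := j) (b := N - B) (p := N)
    (Nat.zero_le _) (by omega) (by omega) (by omega) hmin ?_ ?_ ?_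
  · rw [hj2]; exact hvtx
  · have h3 := Pool.Agent.PercW.mt_nxt (T : Set Ed) ((nxt (T : Set Ed))^[A] c₁)
    rw [← Function.iterate_succ_apply' (nxt (T : Set Ed))] at h3
    exact far_of_step hR h3 hA2 hA3 hfar
  · have h3 := Pool.Agent.PercW.mt_nxt (T : Set Ed) ((nxt (T : Set Ed))^[N - (B + 1)] c₁)
    rw [← Function.iterate_succ_apply' (nxt (T : Set Ed)),
      show (N - (B + 1)).succ = N - B by omega] at h3
    exact far_of_step hR h3.symm hB2 hB3 hfar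

end Pool.Agent.PercP
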